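import Pool.Agent.Run7.h325.HRT.Stm

/-!
# Project HRT (helper325), piece SEQ (helper382)
-/

set_option autoImplicit false

namespace Run7.h382.HRT

open Pool.Agent.Run7.h325.HRT

theorem t_SEQ : S_SEQ := by
  refine ⟨100000, 134086656, fun T hT => ?_⟩
  obtain ⟨Y, hY⟩ : ∃ Y, Y = (T + 1025) / 1023 := ⟨_, rfl⟩
  have hY1 : T + 3 ≤ 1023 * Y := by omega
  have hY2 : 1023 * Y ≤ T + 1025 := by omega
  have hY3 : 131072 ≤ Y := by omega
  obtain ⟨q, hq⟩ : ∃ q, q = Nat.log 1024 (Y / 128) := ⟨_, rfl⟩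
  have h0 : Y / 128 ≠ 0 := by omega
  have h1 : 1024 ^ q ≤ Y / 128 := by
    rw [hq]
    exact Nat.pow_log_le_self 1024 h0
  have h2 : Y / 128 < 1024 ^ (q + 1) := by
    rw [hq]
    exact Nat.lt_pow_succ_log_self (by norm_num) _
  have hq1 : 1 ≤ q := by
    by_contra h
    have h3 : q = 0 := by omega
    rw [h3] at h2
    norm_num at h2
    omega
  rw [pow_succ] at h2
  obtain ⟨P, hP⟩ : ∃ P, P = 1024 ^ q := ⟨_, rfl⟩
  have hP0 : 0 < P := by rw [hP]; positivity
  rw [← hP] at h1 h2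
  obtain ⟨m, hm⟩ : ∃ m, m = (Y + P - 1) / P := ⟨_, rfl⟩
  have h3 : m * P ≤ Y + P - 1 := by
    rw [hm]
    exact Nat.div_mul_le_self _ _
  have h4 : Y ≤ m * P := by
    have h5 : Y + P - 1 < ((Y + P - 1) / P + 1) * P := by
      have h6 := Nat.div_add_mod (Y + P - 1) P
      have h7 := Nat.mod_lt (Y + P - 1) hP0
      rw [add_mul, one_mul, mul_comm]
      omega
    rw [← hm] at h5
    rw [add_mul, one_mul] at h5
    omega
  have hm1 : 128 ≤ m := by
    by_contra h
    have h5 : m * P ≤ 127 * P := Nat.mul_le_mul_right _ (by omega)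
    omega
  have hm2 : m ≤ 131072 := by
    by_contra h
    have h5 : 131073 * P ≤ m * P := Nat.mul_le_mul_right _ (by omega)
    omega
  have hf1 : f m q = m * P := by rw [hP]; rfl
  have hf2 : f m (q + 1) = 1024 * (m * P) := by
    rw [hP]
    unfold f
    ring
  refine ⟨m, q, hm1, hm2, hq1, ?_, ?_, ?_⟩
  · rw [hf1, hf2]
    omega
  · rw [hf1, hf2]
    omega
  · rw [hf1]
    omega

end Run7.h382.HRT
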